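import Mathlib

set_option autoImplicit false

namespace Q116.Nearly

open Finset

/-- `S` is 1-nearly independent: the subgraph of `G` induced by `S` has exactly one edge. -/
def IsNearly {V : Type} (G : SimpleGraph V) (S : Finset V) : Prop :=
  (G.induce (S : Set V)).edgeSet.ncard = 1

/-- The finite set of all 1-nearly independent sets. -/
noncomputable def nearly {V : Type} [Fintype V] (G : SimpleGraph V) : Finset (Finset V) := by
  classical exact univ.filter (fun S => IsNearly G S)

/-- `σ₁(G)`: the number of 1-nearly independent sets. -/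
noncomputable def sigma1 {V : Type} [Fintype V] (G : SimpleGraph V) : ℕ := (nearly G).card

/-- `S₁(G)`: the sum of the cardinalities of the 1-nearly independent sets. -/
noncomputable def S1 {V : Type} [Fintype V] (G : SimpleGraph V) : ℕ := ∑ S ∈ nearly G, S.card

/-- `av₁(G)`: the average cardinality of a 1-nearly independent set. -/
noncomputable def av1 {V : Type} [Fintype V] (G : SimpleGraph V) : ℚ := S1 G / sigma1 G

/-- The tree `R_n`: the centre `0` is adjacent to `1, ..., n - 2`, and `1` is adjacent to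
`n - 1`. -/
def R (n : ℕ) : SimpleGraph (Fin n) :=
  SimpleGraph.fromRel (fun i j => (i.val = 0 ∧ j.val ≠ n - 1) ∨ (i.val = 1 ∧ j.val = n - 1))

section basic
variable {V : Type}

lemma isNearly_iff (G : SimpleGraph V) (S : Finset V) :
    IsNearly G S ↔ ∃ u v, G.Adj u v ∧ u ∈ S ∧ v ∈ S ∧
      ∀ x ∈ S, ∀ y ∈ S, G.Adj x y → s(x, y) = s(u, v) := by
  unfold IsNearly
  rw [Set.ncard_eq_one]
  constructor
  · rintro ⟨a, ha⟩
    induction a using Sym2.ind with
    | _ a b =>
      obtain ⟨u, hu⟩ := a
      obtain ⟨v, hv⟩ := b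
      have h1 : s((⟨u, hu⟩ : (S : Set V)), ⟨v, hv⟩) ∈ (G.induce (S : Set V)).edgeSet := by
        rw [ha]; rfl
      refine ⟨u, v, ?_, hu, hv, ?_⟩
      · rw [SimpleGraph.mem_edgeSet] at h1; exact h1
      · intro x hx y hy hxy
        have h2 : s((⟨x, hx⟩ : (S : Set V)), ⟨y, hy⟩) ∈ (G.induce (S : Set V)).edgeSet := by
          rw [SimpleGraph.mem_edgeSet]; exact hxy
        rw [ha, Set.mem_singleton_iff] at h2
        have h3 := congrArg (Sym2.map (Subtype.val)) h2
        simpa using h3
  · rintro ⟨u, v, huv, hu, hv, h⟩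
    refine ⟨s(⟨u, hu⟩, ⟨v, hv⟩), ?_⟩
    ext e
    induction e using Sym2.ind with
    | _ a b =>
      obtain ⟨x, hx⟩ := a
      obtain ⟨y, hy⟩ := b
      rw [SimpleGraph.mem_edgeSet, Set.mem_singleton_iff]
      constructor
      · intro hxy
        have := h x hx y hy hxy
        rw [Sym2.eq_iff] at this
        rw [Sym2.eq_iff]
        simpa using this
      · intro he
        rw [Sym2.eq_iff] at he
        simp only [Subtype.mk.injEq] at he
        show G.Adj x y
        rcases he with ⟨rfl, rfl⟩ | ⟨rfl, rfl⟩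
        · exact huv
        · exact huv.symm

lemma mem_nearly [Fintype V] (G : SimpleGraph V) (S : Finset V) : S ∈ nearly G ↔ IsNearly G S := by
  classical
  unfold nearly; simp

end basic

/-! ### labelled trees -/

lemma exists_label (m : ℕ) : ∀ (V : Type) [Fintype V] (T : SimpleGraph V), T.IsTree →
    Fintype.card V = m + 1 → ∃ (g : V ↪ ℕ) (p : ℕ → ℕ), (∀ v, g v < m + 1) ∧
      (∀ j, 1 ≤ j → p j < j) ∧
      ∀ x y, T.Adj x y ↔ (1 ≤ g x ∧ p (g x) = g y) ∨ (1 ≤ g y ∧ p (g y) = g x) := by
  classical
  induction m with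
  | zero =>
    intro V _ T hT hc
    have hs : Subsingleton V := by
      rw [← Fintype.card_le_one_iff_subsingleton]; omega
    refine ⟨⟨fun _ => 0, fun a b _ => Subsingleton.elim a b⟩, fun _ => 0, fun v => by simp,
      fun j hj => (show 0 < j by omega), fun x y => ?_⟩
    constructor
    · intro h; exact absurd (Subsingleton.elim x y) h.ne
    · rintro (⟨h, -⟩ | ⟨h, -⟩) <;> simp at h
  | succ m ih =>
    intro V _ T hT hc
    have hnt : Nontrivial V := by
      rw [← Fintype.one_lt_card_iff_nontrivial]; omega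
    obtain ⟨v, hv⟩ := hT.exists_vert_degree_one_of_nontrivial
    obtain ⟨w, hw⟩ := SimpleGraph.degree_eq_one_iff_existsUnique_adj.mp hv
    have hwv : w ≠ v := hw.1.ne'
    have hT' : (T.induce ({v}ᶜ : Set V)).IsTree :=
      ⟨hT.connected.induce_compl_singleton_of_degree_eq_one hv, hT.isAcyclic.induce _⟩
    have hc' : Fintype.card ({v}ᶜ : Set V) = m + 1 := by
      rw [Fintype.card_compl_set, hc]; simp
    obtain ⟨g', p', hg', hp', hadj'⟩ := ih _ (T.induce ({v}ᶜ : Set V)) hT' hc'
    let w' : ({v}ᶜ : Set V) := ⟨w, hwv⟩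
    let g : V → ℕ := fun x => if h : x = v then m + 1 else g' ⟨x, h⟩
    have gv : g v = m + 1 := by simp [g]
    have gx : ∀ x (h : x ≠ v), g x = g' ⟨x, h⟩ := fun x h => by simp [g, h]
    have glt : ∀ x, x ≠ v → g x < m + 1 := fun x h => by rw [gx x h]; exact hg' _
    have ginj : Function.Injective g := by
      intro x y hxy
      by_cases hx : x = v <;> by_cases hy : y = v
      · rw [hx, hy]
      · rw [hx, gv] at hxy
        have := glt y hy; omega
      · rw [hy, gv] at hxy
        have := glt x hx; omega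
      · rw [gx x hx, gx y hy] at hxy
        have := g'.injective hxy
        simpa using this
    let p : ℕ → ℕ := fun j => if j = m + 1 then g w else p' j
    have pm : p (m + 1) = g w := by simp [p]
    have pj : ∀ j, j < m + 1 → p j = p' j := fun j hj => by
      simp only [p]; rw [if_neg (by omega)]
    refine ⟨⟨g, ginj⟩, p, ?_, ?_, ?_⟩
    · intro x
      show g x < m + 1 + 1
      by_cases hx : x = v
      · rw [hx, gv]; omega
      · have := glt x hx; omega
    · intro j hj
      by_cases h : j = m + 1
      · rw [h, pm]; exact glt w hwv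
      · simp only [p]; rw [if_neg h]; exact hp' j hj
    · intro x y
      show T.Adj x y ↔ (1 ≤ g x ∧ p (g x) = g y) ∨ (1 ≤ g y ∧ p (g y) = g x)
      by_cases hx : x = v <;> by_cases hy : y = v
      · rw [hx, hy, gv, pm]
        have := glt w hwv
        constructor
        · intro h; exact absurd h (T.loopless.irrefl v)
        · rintro (⟨-, h⟩ | ⟨-, h⟩) <;> omega
      · rw [hx, gv, pm]
        have hy' := glt y hy
        rw [pj _ hy']
        constructor
        · intro h
          left
          rw [hw.2 y h]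
          exact ⟨by omega, rfl⟩
        · rintro (⟨-, h⟩ | ⟨h1, h2⟩)
          · rw [← ginj h]; exact hw.1
          · have := hp' (g y) h1
            omega
      · rw [hy, gv, pm]
        have hx' := glt x hx
        rw [pj _ hx']
        constructor
        · intro h
          right
          rw [hw.2 x h.symm]
          exact ⟨by omega, rfl⟩
        · rintro (⟨h1, h2⟩ | ⟨-, h⟩)
          · have := hp' (g x) h1
            omega
          · rw [← ginj h]; exact hw.1.symm
      · rw [pj _ (glt x hx), pj _ (glt y hy), gx x hx, gx y hy]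
        exact hadj' ⟨x, hx⟩ ⟨y, hy⟩

/-! ### the transfer computation -/

/-- number of edges `{j, p j}` inside `t`, for `1 ≤ j ≤ m` -/
def E (m : ℕ) (p : ℕ → ℕ) (t : Finset ℕ) : ℕ :=
  ((Ico 1 (m + 1)).filter (fun j => j ∈ t ∧ p j ∈ t)).card

def yy : ℕ := 2 ^ 144
def eps : ℕ := 2 ^ 13

/-- weighted sum over all subsets -/
def Z (m : ℕ) (p a b : ℕ → ℕ) : ℕ :=
  ∑ t ∈ (range (m + 1)).powerset, (∏ i ∈ range (m + 1), if i ∈ t then b i else a i) *
    ∏ j ∈ Ico 1 (m + 1), if j ∈ t ∧ p j ∈ t then yy else 1

/-- multiply the value at `k` by `u` -/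
def upd (a : ℕ → ℕ) (k u : ℕ) : ℕ → ℕ := fun i => if i = k then a i * u else a i

lemma Z_succ (m : ℕ) (p a b : ℕ → ℕ) (hp : ∀ j, 1 ≤ j → p j < j) :
    Z (m + 1) p a b = Z m p (upd a (p (m + 1)) (a (m + 1) + b (m + 1)))
      (upd b (p (m + 1)) (a (m + 1) + yy * b (m + 1))) := by
  unfold Z
  rw [Finset.range_add_one (n := m + 1), Finset.sum_powerset_insert (by simp),
    ← Finset.sum_add_distrib]
  apply Finset.sum_congr rfl
  intro t ht
  rw [Finset.mem_powerset] at ht
  have hm : m + 1 ∉ t := fun h => by have := ht h; simp at this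
  have hk : p (m + 1) < m + 1 := hp _ (by omega)
  rw [Finset.prod_insert (by simp), Finset.prod_insert (by simp), Nat.Ico_succ_right_eq_insert_Ico (by omega),
    Finset.prod_insert (by simp), Finset.prod_insert (by simp)]
  rw [if_neg hm, if_pos (Finset.mem_insert_self _ _), if_neg (fun h => hm h.1)]
  have e1 : ∏ i ∈ range (m + 1), (if i ∈ insert (m + 1) t then b i else a i) =
      ∏ i ∈ range (m + 1), (if i ∈ t then b i else a i) := by
    apply Finset.prod_congr rfl
    intro i hi
    rw [Finset.mem_range] at hi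
    have : (i ∈ insert (m + 1) t) ↔ i ∈ t := by
      rw [Finset.mem_insert]; constructor
      · rintro (h | h)
        · omega
        · exact h
      · exact Or.inr
    simp only [this]
  have e2 : ∏ j ∈ Ico 1 (m + 1), (if j ∈ insert (m + 1) t ∧ p j ∈ insert (m + 1) t then yy else 1) =
      ∏ j ∈ Ico 1 (m + 1), (if j ∈ t ∧ p j ∈ t then yy else 1) := by
    apply Finset.prod_congr rfl
    intro j hj
    rw [Finset.mem_Ico] at hj
    have hpj := hp j hj.1
    have h1 : (j ∈ insert (m + 1) t) ↔ j ∈ t := by
      rw [Finset.mem_insert]; constructor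
      · rintro (h | h)
        · omega
        · exact h
      · exact Or.inr
    have h2 : (p j ∈ insert (m + 1) t) ↔ p j ∈ t := by
      rw [Finset.mem_insert]; constructor
      · rintro (h | h)
        · omega
        · exact h
      · exact Or.inr
    simp only [h1, h2]
  have e3 : (if m + 1 ∈ insert (m + 1) t ∧ p (m + 1) ∈ insert (m + 1) t then yy else 1) =
      if p (m + 1) ∈ t then yy else 1 := by
    have h2 : (p (m + 1) ∈ insert (m + 1) t) ↔ p (m + 1) ∈ t := by
      rw [Finset.mem_insert]; constructor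
      · rintro (h | h)
        · omega
        · exact h
      · exact Or.inr
    simp only [h2, Finset.mem_insert_self, true_and]
  rw [e1, e2, e3]
  have e4 : ∏ i ∈ range (m + 1), (if i ∈ t then
        upd b (p (m + 1)) (a (m + 1) + yy * b (m + 1)) i else
        upd a (p (m + 1)) (a (m + 1) + b (m + 1)) i) =
      (∏ i ∈ range (m + 1), (if i ∈ t then b i else a i)) *
        (if p (m + 1) ∈ t then a (m + 1) + yy * b (m + 1) else a (m + 1) + b (m + 1)) := by
    have : ∀ i ∈ range (m + 1), (if i ∈ t then
        upd b (p (m + 1)) (a (m + 1) + yy * b (m + 1)) i else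
        upd a (p (m + 1)) (a (m + 1) + b (m + 1)) i) =
        (if i ∈ t then b i else a i) * (if i = p (m + 1) then
          (if p (m + 1) ∈ t then a (m + 1) + yy * b (m + 1) else a (m + 1) + b (m + 1)) else 1) := by
      intro i _
      unfold upd
      by_cases hi : i = p (m + 1)
      · rw [← hi]
        split_ifs <;> first | rfl | (exfalso; exact (‹¬ i = i›) rfl)
      · simp only [if_neg hi, mul_one]
    rw [Finset.prod_congr rfl this, Finset.prod_mul_distrib, Finset.prod_ite_eq' ,
      if_pos (Finset.mem_range.mpr hk)]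
  rw [e4]
  split_ifs <;> ring

lemma prod_yy (m : ℕ) (p : ℕ → ℕ) (t : Finset ℕ) :
    (∏ j ∈ Ico 1 (m + 1), if j ∈ t ∧ p j ∈ t then yy else 1) = yy ^ E m p t := by
  unfold E
  rw [Finset.prod_ite, Finset.prod_const, Finset.prod_const_one, mul_one]

lemma Z_init (m : ℕ) (p : ℕ → ℕ) : Z m p (fun _ => 1) (fun _ => 1 + eps) =
    ∑ t ∈ (range (m + 1)).powerset, (1 + eps) ^ t.card * yy ^ E m p t := by
  unfold Z
  apply Finset.sum_congr rfl
  intro t ht
  rw [Finset.mem_powerset] at ht
  rw [prod_yy, Finset.prod_ite, Finset.prod_const, Finset.prod_const_one, mul_one]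
  congr 3
  ext i
  rw [Finset.mem_filter]
  exact ⟨fun h => h.2, fun h => ⟨ht h, h⟩⟩

/-! ### the search -/

def test (A B : ℕ) (z : ℕ) : Bool :=
  Nat.ble ((z / yy % yy % (eps * eps)) / eps * B) (A * ((z / yy % yy % (eps * eps)) % eps))

def modi (i u v : ℕ) : List (ℕ × ℕ) → List (ℕ × ℕ)
  | [] => []
  | (a, b) :: t => match i with
    | 0 => (a * u, b * v) :: t
    | i + 1 => (a, b) :: modi i u v t

def dfs (A B : ℕ) : ℕ → List (ℕ × ℕ) → Bool
  | 0, l => match l with
    | [] => true
    | (a, b) :: _ => test A B (a + b)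
  | m + 1, l => match l with
    | [] => true
    | (a, b) :: t => (List.range (m + 1)).all fun i => dfs A B m (modi i (a + b) (a + yy * b) t)

/-- list of the weights of `m, m - 1, ..., 0` -/
def L (a b : ℕ → ℕ) : ℕ → List (ℕ × ℕ)
  | 0 => [(a 0, b 0)]
  | m + 1 => (a (m + 1), b (m + 1)) :: L a b m

lemma L_congr {a b a' b' : ℕ → ℕ} (m : ℕ) (h : ∀ i ≤ m, a i = a' i ∧ b i = b' i) :
    L a b m = L a' b' m := by
  induction m with
  | zero => simp [L, h 0 le_rfl]
  | succ m ih =>
    simp only [L]
    rw [ih (fun i hi => h i (by omega)), (h (m + 1) le_rfl).1, (h (m + 1) le_rfl).2]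

lemma modi_L (a b : ℕ → ℕ) (u v k : ℕ) (m : ℕ) (hk : k ≤ m) :
    modi (m - k) u v (L a b m) = L (upd a k u) (upd b k v) m := by
  induction m with
  | zero =>
    obtain rfl : k = 0 := by omega
    simp [L, modi, upd]
  | succ m ih =>
    rcases Nat.lt_or_ge m k with h | h
    · obtain rfl : k = m + 1 := by omega
      simp only [L, Nat.sub_self, modi]
      rw [L_congr (a := a) (b := b) (a' := upd a (m + 1) u) (b' := upd b (m + 1) v) m]
      · simp [upd]
      · intro i hi
        unfold upd
        rw [if_neg (by omega), if_neg (by omega)]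
        exact ⟨rfl, rfl⟩
    · rw [show m + 1 - k = (m - k) + 1 by omega]
      simp only [L, modi]
      rw [ih h]
      unfold upd
      rw [if_neg (by omega), if_neg (by omega)]

lemma dfs_correct (A B m : ℕ) : ∀ (a b : ℕ → ℕ), dfs A B m (L a b m) = true →
    ∀ p : ℕ → ℕ, (∀ j, 1 ≤ j → p j < j) → test A B (Z m p a b) = true := by
  induction m with
  | zero =>
    intro a b h p _
    simp only [dfs, L] at h
    have : Z 0 p a b = a 0 + b 0 := by
      unfold Z
      rw [zero_add, show (range 1).powerset = {∅, {0}} from rfl, Finset.sum_pair (by simp)]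
      simp
    rw [this]; exact h
  | succ m ih =>
    intro a b h p hp
    rw [Z_succ m p a b hp]
    simp only [dfs, L, List.all_eq_true, List.mem_range] at h
    have hk := hp (m + 1) (by omega)
    have h1 := h (m - p (m + 1)) (by omega)
    rw [modi_L a b _ _ _ m (by omega)] at h1
    exact ih _ _ h1 p hp

end Q116.Nearly
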