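import Pool.Agent.Q116.Nearly.Basic

set_option autoImplicit false

namespace Q116.Nearly

open Finset

/-- the structure of `R_n`: a pendant path `u v w`, all other vertices are leaves at `w` -/
structure IsR {V : Type} (G : SimpleGraph V) (u v w : V) : Prop where
  uv : u ≠ v
  vw : v ≠ w
  uw : u ≠ w
  auv : G.Adj u v
  avw : G.Adj v w
  nuw : ¬ G.Adj u w
  aw : ∀ x, x ≠ u → x ≠ v → x ≠ w → G.Adj w x
  nu : ∀ x, x ≠ u → x ≠ v → x ≠ w → ¬ G.Adj u x
  nv : ∀ x, x ≠ u → x ≠ v → x ≠ w → ¬ G.Adj v x
  nn : ∀ x y, x ≠ u → x ≠ v → x ≠ w → y ≠ u → y ≠ v → y ≠ w → ¬ G.Adj x y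

section formula
variable {V : Type} [Fintype V] [DecidableEq V] {G : SimpleGraph V} {u v w : V}

/-- the other vertices -/
def rest (u v w : V) : Finset V := univ.filter (fun x => x ≠ u ∧ x ≠ v ∧ x ≠ w)

lemma mem_rest (x : V) : x ∈ rest u v w ↔ x ≠ u ∧ x ≠ v ∧ x ≠ w := by
  simp [rest]

lemma IsR.cls (h : IsR G u v w) {a b : V} (hab : G.Adj a b) :
    (a = u ∧ b = v) ∨ (a = v ∧ b = u) ∨ (a = v ∧ b = w) ∨ (a = w ∧ b = v) ∨
      (a = w ∧ b ∈ rest u v w) ∨ (a ∈ rest u v w ∧ b = w) := by
  rw [mem_rest, mem_rest]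
  by_cases ha1 : a = u
  · by_cases hb1 : b = u
    · exact absurd (ha1.trans hb1.symm) hab.ne
    · by_cases hb2 : b = v
      · exact Or.inl ⟨ha1, hb2⟩
      · by_cases hb3 : b = w
        · exact absurd (ha1 ▸ hb3 ▸ hab) h.nuw
        · exact absurd (ha1 ▸ hab) (h.nu b hb1 hb2 hb3)
  · by_cases ha2 : a = v
    · by_cases hb1 : b = u
      · exact Or.inr (Or.inl ⟨ha2, hb1⟩)
      · by_cases hb2 : b = v
        · exact absurd (ha2.trans hb2.symm) hab.ne
        · by_cases hb3 : b = w
          · exact Or.inr (Or.inr (Or.inl ⟨ha2, hb3⟩))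
          · exact absurd (ha2 ▸ hab) (h.nv b hb1 hb2 hb3)
    · by_cases ha3 : a = w
      · by_cases hb1 : b = u
        · exact absurd (ha3 ▸ hb1 ▸ hab).symm h.nuw
        · by_cases hb2 : b = v
          · exact Or.inr (Or.inr (Or.inr (Or.inl ⟨ha3, hb2⟩)))
          · by_cases hb3 : b = w
            · exact absurd (ha3.trans hb3.symm) hab.ne
            · exact Or.inr (Or.inr (Or.inr (Or.inr (Or.inl ⟨ha3, hb1, hb2, hb3⟩))))
      · by_cases hb1 : b = u
        · exact absurd (hb1 ▸ hab).symm (h.nu a ha1 ha2 ha3)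
        · by_cases hb2 : b = v
          · exact absurd (hb2 ▸ hab).symm (h.nv a ha1 ha2 ha3)
          · by_cases hb3 : b = w
            · exact Or.inr (Or.inr (Or.inr (Or.inr (Or.inr ⟨⟨ha1, ha2, ha3⟩, hb3⟩))))
            · exact absurd hab (h.nn a b ha1 ha2 ha3 hb1 hb2 hb3)

lemma IsR.nearly_eq (h : IsR G u v w) : nearly G =
    (rest u v w).powerset.image (fun I => insert u (insert v I)) ∪ ({{v, w}} ∪
      ((rest u v w).image (fun x => {w, x}) ∪ (rest u v w).image (fun x => {u, w, x}))) := by
  have huv := h.uv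
  have hvw := h.vw
  have huw := h.uw
  ext S
  rw [mem_nearly, isNearly_iff]
  simp only [Finset.mem_union, Finset.mem_image, Finset.mem_powerset, Finset.mem_singleton]
  constructor
  · rintro ⟨a, b, hab, ha, hb, hS⟩
    by_cases hu : u ∈ S
    · by_cases hv : v ∈ S
      · left
        have e1 := hS u hu v hv h.auv
        have hw : w ∉ S := by
          intro hw
          have e2 := hS v hv w hw h.avw
          rw [← e1, Sym2.eq_iff] at e2
          rcases e2 with ⟨h1, -⟩ | ⟨-, h1⟩
          · exact huv h1.symm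
          · exact huw h1.symm
        refine ⟨(S.erase u).erase v, ?_, ?_⟩
        · intro x hx
          rw [Finset.mem_erase, Finset.mem_erase] at hx
          rw [mem_rest]
          exact ⟨hx.2.1, hx.1, fun hxw => hw (hxw ▸ hx.2.2)⟩
        · rw [Finset.insert_erase (Finset.mem_erase.mpr ⟨huv.symm, hv⟩), Finset.insert_erase hu]
      · right; right; right
        have key : w ∈ S ∧ ∃ x ∈ rest u v w, x ∈ S := by
          rcases h.cls hab with ⟨-, h1⟩ | ⟨h1, -⟩ | ⟨h1, -⟩ | ⟨-, h1⟩ | ⟨h1, h2⟩ | ⟨h1, h2⟩
          · exact absurd (h1 ▸ hb) hv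
          · exact absurd (h1 ▸ ha) hv
          · exact absurd (h1 ▸ ha) hv
          · exact absurd (h1 ▸ hb) hv
          · exact ⟨h1 ▸ ha, b, h2, hb⟩
          · exact ⟨h2 ▸ hb, a, h1, ha⟩
        obtain ⟨hw, x, hx, hxS⟩ := key
        refine ⟨x, hx, ?_⟩
        rw [mem_rest] at hx
        have e1 := hS w hw x hxS (h.aw x hx.1 hx.2.1 hx.2.2)
        ext z
        simp only [Finset.mem_insert, Finset.mem_singleton]
        constructor
        · rintro (rfl | rfl | rfl)
          · exact hu
          · exact hw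
          · exact hxS
        · intro hz
          by_cases z1 : z = u
          · exact Or.inl z1
          by_cases z2 : z = w
          · exact Or.inr (Or.inl z2)
          have z3 : z ≠ v := fun hh => hv (hh ▸ hz)
          have e2 := hS w hw z hz (h.aw z z1 z3 z2)
          rw [← e1, Sym2.eq_iff] at e2
          rcases e2 with ⟨-, h1⟩ | ⟨h1, h2⟩
          · exact Or.inr (Or.inr h1)
          · exact absurd h2 z2
    · by_cases hv : v ∈ S
      · right; left
        have hw : w ∈ S := by
          rcases h.cls hab with ⟨h1, -⟩ | ⟨-, h1⟩ | ⟨-, h1⟩ | ⟨h1, -⟩ | ⟨h1, -⟩ | ⟨-, h1⟩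
          · exact absurd (h1 ▸ ha) hu
          · exact absurd (h1 ▸ hb) hu
          · exact h1 ▸ hb
          · exact h1 ▸ ha
          · exact h1 ▸ ha
          · exact h1 ▸ hb
        have e1 := hS v hv w hw h.avw
        ext z
        simp only [Finset.mem_insert, Finset.mem_singleton]
        constructor
        · intro hz
          by_cases z1 : z = v
          · exact Or.inl z1
          by_cases z2 : z = w
          · exact Or.inr z2
          have z3 : z ≠ u := fun hh => hu (hh ▸ hz)
          have e2 := hS w hw z hz (h.aw z z3 z1 z2)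
          rw [← e1, Sym2.eq_iff] at e2
          rcases e2 with ⟨h1, -⟩ | ⟨-, h2⟩
          · exact absurd h1.symm hvw
          · exact absurd h2 z1
        · rintro (rfl | rfl)
          · exact hv
          · exact hw
      · right; right; left
        have key : w ∈ S ∧ ∃ x ∈ rest u v w, x ∈ S := by
          rcases h.cls hab with ⟨-, h1⟩ | ⟨h1, -⟩ | ⟨h1, -⟩ | ⟨-, h1⟩ | ⟨h1, h2⟩ | ⟨h1, h2⟩
          · exact absurd (h1 ▸ hb) hv
          · exact absurd (h1 ▸ ha) hv
          · exact absurd (h1 ▸ ha) hv
          · exact absurd (h1 ▸ hb) hv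
          · exact ⟨h1 ▸ ha, b, h2, hb⟩
          · exact ⟨h2 ▸ hb, a, h1, ha⟩
        obtain ⟨hw, x, hx, hxS⟩ := key
        refine ⟨x, hx, ?_⟩
        rw [mem_rest] at hx
        have e1 := hS w hw x hxS (h.aw x hx.1 hx.2.1 hx.2.2)
        ext z
        simp only [Finset.mem_insert, Finset.mem_singleton]
        constructor
        · rintro (rfl | rfl)
          · exact hw
          · exact hxS
        · intro hz
          by_cases z2 : z = w
          · exact Or.inl z2
          have z1 : z ≠ u := fun hh => hu (hh ▸ hz)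
          have z3 : z ≠ v := fun hh => hv (hh ▸ hz)
          have e2 := hS w hw z hz (h.aw z z1 z3 z2)
          rw [← e1, Sym2.eq_iff] at e2
          rcases e2 with ⟨-, h1⟩ | ⟨h1, h2⟩
          · exact Or.inr h1
          · exact absurd h2 z2
  · rintro (⟨I, hI, rfl⟩ | rfl | ⟨x, hx, rfl⟩ | ⟨x, hx, rfl⟩)
    · refine ⟨u, v, h.auv, by simp, by simp, ?_⟩
      have hwn : w ∉ insert u (insert v I) := by
        simp only [Finset.mem_insert, not_or]
        exact ⟨huw.symm, hvw.symm, fun hw => ((mem_rest w).mp (hI hw)).2.2 rfl⟩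
      intro a ha b hb hab
      rcases h.cls hab with ⟨h1, h2⟩ | ⟨h1, h2⟩ | ⟨h1, h2⟩ | ⟨h1, h2⟩ | ⟨h1, h2⟩ | ⟨h1, h2⟩
      · rw [h1, h2]
      · rw [h1, h2, Sym2.eq_swap]
      · exact absurd (h2 ▸ hb) hwn
      · exact absurd (h1 ▸ ha) hwn
      · exact absurd (h1 ▸ ha) hwn
      · exact absurd (h2 ▸ hb) hwn
    · refine ⟨v, w, h.avw, by simp, by simp, ?_⟩
      have hun : u ∉ ({v, w} : Finset V) := by simp [huv, huw]
      intro a ha b hb hab
      rcases h.cls hab with ⟨h1, h2⟩ | ⟨h1, h2⟩ | ⟨h1, h2⟩ | ⟨h1, h2⟩ | ⟨h1, h2⟩ | ⟨h1, h2⟩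
      · exact absurd (h1 ▸ ha) hun
      · exact absurd (h2 ▸ hb) hun
      · rw [h1, h2]
      · rw [h1, h2, Sym2.eq_swap]
      · rw [mem_rest] at h2
        simp only [Finset.mem_insert, Finset.mem_singleton] at hb
        rcases hb with hb | hb
        · exact absurd hb h2.2.1
        · exact absurd hb h2.2.2
      · rw [mem_rest] at h1
        simp only [Finset.mem_insert, Finset.mem_singleton] at ha
        rcases ha with ha | ha
        · exact absurd ha h1.2.1
        · exact absurd ha h1.2.2
    · rw [mem_rest] at hx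
      refine ⟨w, x, h.aw x hx.1 hx.2.1 hx.2.2, by simp, by simp, ?_⟩
      intro a ha b hb hab
      simp only [Finset.mem_insert, Finset.mem_singleton] at ha hb
      rcases ha with rfl | rfl <;> rcases hb with rfl | rfl
      · exact absurd rfl hab.ne
      · rfl
      · rw [Sym2.eq_swap]
      · exact absurd rfl hab.ne
    · rw [mem_rest] at hx
      refine ⟨w, x, h.aw x hx.1 hx.2.1 hx.2.2, by simp, by simp, ?_⟩
      intro a ha b hb hab
      simp only [Finset.mem_insert, Finset.mem_singleton] at ha hb
      rcases ha with rfl | rfl | rfl <;> rcases hb with rfl | rfl | rfl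
      · exact absurd rfl hab.ne
      · exact absurd hab h.nuw
      · exact absurd hab (h.nu _ hx.1 hx.2.1 hx.2.2)
      · exact absurd hab.symm h.nuw
      · exact absurd rfl hab.ne
      · rfl
      · exact absurd hab.symm (h.nu _ hx.1 hx.2.1 hx.2.2)
      · rw [Sym2.eq_swap]
      · exact absurd rfl hab.ne

lemma IsR.sum_nearly (h : IsR G u v w) (f : Finset V → ℕ) : ∑ S ∈ nearly G, f S =
    ∑ I ∈ (rest u v w).powerset, f (insert u (insert v I)) + (f {v, w} +
      (∑ x ∈ rest u v w, f {w, x} + ∑ x ∈ rest u v w, f {u, w, x})) := by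
  have huv := h.uv
  have hvw := h.vw
  have huw := h.uw
  rw [h.nearly_eq, Finset.sum_union, Finset.sum_union, Finset.sum_union, Finset.sum_singleton,
    Finset.sum_image, Finset.sum_image, Finset.sum_image]
  · intro x hx y hy hxy
    rw [Finset.mem_coe, mem_rest] at hx hy
    have : x ∈ ({u, w, y} : Finset V) := by
      have e : ({u, w, x} : Finset V) = {u, w, y} := hxy
      rw [← e]; simp
    simp only [Finset.mem_insert, Finset.mem_singleton] at this
    rcases this with h1 | h1 | h1
    · exact absurd h1 hx.1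
    · exact absurd h1 hx.2.2
    · exact h1
  · intro x hx y hy hxy
    rw [Finset.mem_coe, mem_rest] at hx hy
    have : x ∈ ({w, y} : Finset V) := by
      have e : ({w, x} : Finset V) = {w, y} := hxy
      rw [← e]; simp
    simp only [Finset.mem_insert, Finset.mem_singleton] at this
    rcases this with h1 | h1
    · exact absurd h1 hx.2.2
    · exact h1
  · intro I hI J hJ hIJ
    rw [Finset.mem_coe, Finset.mem_powerset] at hI hJ
    have e : insert u (insert v I) = insert u (insert v J) := hIJ
    ext x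
    have key : x ∈ insert u (insert v I) ↔ x ∈ insert u (insert v J) := by rw [e]
    simp only [Finset.mem_insert] at key
    by_cases h1 : x = u
    · subst h1
      constructor
      · intro hx; exact absurd rfl ((mem_rest _).mp (hI hx)).1
      · intro hx; exact absurd rfl ((mem_rest _).mp (hJ hx)).1
    · by_cases h2 : x = v
      · subst h2
        constructor
        · intro hx; exact absurd rfl ((mem_rest _).mp (hI hx)).2.1
        · intro hx; exact absurd rfl ((mem_rest _).mp (hJ hx)).2.1
      · simpa [h1, h2] using key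
  · rw [Finset.disjoint_left]
    intro S h1 h2
    rw [Finset.mem_image] at h1 h2
    obtain ⟨x, hx, rfl⟩ := h1
    obtain ⟨y, hy, hxy⟩ := h2
    rw [mem_rest] at hx
    have : u ∈ ({w, x} : Finset V) := by rw [← hxy]; simp
    simp only [Finset.mem_insert, Finset.mem_singleton] at this
    rcases this with h1 | h1
    · exact huw h1
    · exact hx.1 h1.symm
  · rw [Finset.disjoint_left]
    intro S h1 h2
    rw [Finset.mem_singleton] at h1
    subst h1
    rw [Finset.mem_union, Finset.mem_image, Finset.mem_image] at h2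
    rcases h2 with ⟨y, hy, hxy⟩ | ⟨y, hy, hxy⟩
    · have : v ∈ ({w, y} : Finset V) := by rw [hxy]; simp
      rw [mem_rest] at hy
      simp only [Finset.mem_insert, Finset.mem_singleton] at this
      rcases this with h1 | h1
      · exact hvw h1
      · exact hy.2.1 h1.symm
    · have : v ∈ ({u, w, y} : Finset V) := by rw [hxy]; simp
      rw [mem_rest] at hy
      simp only [Finset.mem_insert, Finset.mem_singleton] at this
      rcases this with h1 | h1 | h1
      · exact huv h1.symm
      · exact hvw h1
      · exact hy.2.1 h1.symm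
  · rw [Finset.disjoint_left]
    intro S h1 h2
    rw [Finset.mem_image] at h1
    obtain ⟨I, hI, rfl⟩ := h1
    have hu' : u ∈ insert u (insert v I) := by simp
    have hv' : v ∈ insert u (insert v I) := by simp
    rw [Finset.mem_union, Finset.mem_union, Finset.mem_singleton, Finset.mem_image,
      Finset.mem_image] at h2
    rcases h2 with h2 | ⟨y, hy, h2⟩ | ⟨y, hy, h2⟩
    · rw [h2] at hu'
      simp only [Finset.mem_insert, Finset.mem_singleton] at hu'
      rcases hu' with h1 | h1
      · exact huv h1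
      · exact huw h1
    · rw [← h2] at hu'
      rw [mem_rest] at hy
      simp only [Finset.mem_insert, Finset.mem_singleton] at hu'
      rcases hu' with h1 | h1
      · exact huw h1
      · exact hy.1 h1.symm
    · rw [← h2] at hv'
      rw [mem_rest] at hy
      simp only [Finset.mem_insert, Finset.mem_singleton] at hv'
      rcases hv' with h1 | h1 | h1
      · exact huv h1.symm
      · exact hvw h1
      · exact hy.2.1 h1.symm

lemma sum_powerset_card (s : Finset V) : 2 * ∑ I ∈ s.powerset, I.card = s.card * 2 ^ s.card := by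
  induction s using Finset.induction_on with
  | empty => simp
  | insert a s ha ih =>
    rw [Finset.sum_powerset_insert ha, Finset.card_insert_of_notMem ha]
    have : ∑ t ∈ s.powerset, (insert a t).card = ∑ t ∈ s.powerset, (t.card + 1) := by
      apply Finset.sum_congr rfl
      intro t ht
      rw [Finset.card_insert_of_notMem (fun h => ha (Finset.mem_powerset.mp ht h))]
    rw [this, Finset.sum_add_distrib, Finset.sum_const, Finset.card_powerset, mul_add, mul_add, ih]
    simp only [smul_eq_mul, mul_one]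
    ring

lemma card_rest (huv : u ≠ v) (hvw : v ≠ w) (huw : u ≠ w) :
    (rest u v w).card + 3 = Fintype.card V := by
  have h1 : rest u v w = univ \ {u, v, w} := by
    ext x; simp [rest, not_or]
  have h2 : ({u, v, w} : Finset V).card = 3 := by
    rw [Finset.card_eq_three]; exact ⟨u, v, w, huv, huw, hvw, rfl⟩
  rw [h1, ← h2, Finset.card_sdiff_add_card_eq_card (Finset.subset_univ _), Finset.card_univ]

lemma IsR.sigma1_eq (h : IsR G u v w) (m : ℕ) (hm : Fintype.card V = m + 3) :
    sigma1 G = 2 ^ m + 2 * m + 1 := by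
  have hr : (rest u v w).card = m := by
    have := card_rest h.uv h.vw h.uw; omega
  unfold sigma1
  rw [Finset.card_eq_sum_ones, h.sum_nearly (fun _ => 1)]
  simp only [Finset.sum_const, Finset.card_powerset, hr, smul_eq_mul, mul_one]
  ring

lemma IsR.S1_eq (h : IsR G u v w) (m : ℕ) (hm : Fintype.card V = m + 3) :
    2 * S1 G = m * 2 ^ m + 4 * 2 ^ m + 10 * m + 4 := by
  have hr : (rest u v w).card = m := by
    have := card_rest h.uv h.vw h.uw; omega
  unfold S1
  rw [h.sum_nearly (fun S => S.card)]
  have e1 : ∑ I ∈ (rest u v w).powerset, (insert u (insert v I)).card =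
      ∑ I ∈ (rest u v w).powerset, (I.card + 2) := by
    apply Finset.sum_congr rfl
    intro I hI
    rw [Finset.mem_powerset] at hI
    rw [Finset.card_insert_of_notMem, Finset.card_insert_of_notMem]
    · exact fun hh => ((mem_rest _).mp (hI hh)).2.1 rfl
    · rw [Finset.mem_insert, not_or]
      exact ⟨h.uv, fun hh => ((mem_rest _).mp (hI hh)).1 rfl⟩
  have e2 : ({v, w} : Finset V).card = 2 := Finset.card_pair h.vw
  have e3 : ∑ x ∈ rest u v w, ({w, x} : Finset V).card = ∑ x ∈ rest u v w, 2 := by
    apply Finset.sum_congr rfl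
    intro x hx
    exact Finset.card_pair ((mem_rest _).mp hx).2.2.symm
  have e4 : ∑ x ∈ rest u v w, ({u, w, x} : Finset V).card = ∑ x ∈ rest u v w, 3 := by
    apply Finset.sum_congr rfl
    intro x hx
    rw [Finset.card_eq_three]
    exact ⟨u, w, x, h.uw, ((mem_rest _).mp hx).1.symm, ((mem_rest _).mp hx).2.2.symm, rfl⟩
  rw [e1, e2, e3, e4, Finset.sum_add_distrib]
  simp only [Finset.sum_const, Finset.card_powerset, hr, smul_eq_mul]
  have := sum_powerset_card (rest u v w)
  rw [hr] at this
  rw [mul_add, mul_add, this]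
  ring

end formula

lemma R_isR (n : ℕ) (hn : 4 ≤ n) : IsR (R n) (⟨n - 1, by omega⟩ : Fin n) ⟨1, by omega⟩ ⟨0, by omega⟩ := by
  unfold R
  constructor
  · simp [Fin.ext_iff]; omega
  · simp [Fin.ext_iff]
  · simp [Fin.ext_iff]; omega
  · simp [Fin.ext_iff]; omega
  · simp [Fin.ext_iff]; omega
  · simp [Fin.ext_iff]; omega
  · intro x h1 h2 h3
    simp [Fin.ext_iff] at *; omega
  · intro x h1 h2 h3
    simp [Fin.ext_iff] at *; omega
  · intro x h1 h2 h3
    simp [Fin.ext_iff] at *; omega
  · intro x y h1 h2 h3 h4 h5 h6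
    simp [Fin.ext_iff] at *; omega

end Q116.Nearly
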