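import Pool.Agent.Q116.Nearly.Basic

set_option autoImplicit false

namespace Q116.Nearly

open Finset

lemma pow_eps (c : ℕ) : ∃ q, (1 + eps) ^ c = 1 + c * eps + eps * eps * q := by
  induction c with
  | zero => exact ⟨0, by simp⟩
  | succ c ih =>
    obtain ⟨q, hq⟩ := ih
    refine ⟨c + q + eps * q, ?_⟩
    rw [pow_succ, hq]; ring

lemma bound (m : ℕ) (hm : m ≤ 8) (P : Finset ℕ → Prop) [DecidablePred P] :
    ∑ t ∈ (range (m + 1)).powerset, (if P t then (1 + eps) ^ t.card else 0) < yy := by
  have h1 : ∀ t ∈ (range (m + 1)).powerset, (if P t then (1 + eps) ^ t.card else 0) ≤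
      (1 + eps) ^ 9 := by
    intro t ht
    split_ifs
    · apply Nat.pow_le_pow_right (by unfold eps; norm_num)
      have := Finset.card_le_card (Finset.mem_powerset.mp ht)
      rw [Finset.card_range] at this
      omega
    · exact Nat.zero_le _
  refine lt_of_le_of_lt (Finset.sum_le_sum h1) ?_
  rw [Finset.sum_const, Finset.card_powerset, Finset.card_range, smul_eq_mul]
  have h2 : 2 ^ (m + 1) ≤ 2 ^ 9 := Nat.pow_le_pow_right (by norm_num) (by omega)
  refine lt_of_le_of_lt (Nat.mul_le_mul_right _ h2) ?_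
  unfold eps yy; norm_num

lemma extract (m : ℕ) (hm : m ≤ 8) (p : ℕ → ℕ) (A B : ℕ)
    (h : test A B (Z m p (fun _ => 1) (fun _ => 1 + eps)) = true) :
    (∑ t ∈ (range (m + 1)).powerset.filter (fun t => E m p t = 1), t.card) * B ≤
      A * ((range (m + 1)).powerset.filter (fun t => E m p t = 1)).card := by
  rw [Z_init] at h
  set σ := ((range (m + 1)).powerset.filter (fun t => E m p t = 1)).card with hσ
  set S := ∑ t ∈ (range (m + 1)).powerset.filter (fun t => E m p t = 1), t.card with hS
  set P0 := ∑ t ∈ (range (m + 1)).powerset, (if E m p t = 0 then (1 + eps) ^ t.card else 0) with hP0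
  set P1 := ∑ t ∈ (range (m + 1)).powerset, (if E m p t = 1 then (1 + eps) ^ t.card else 0) with hP1
  set P2 := ∑ t ∈ (range (m + 1)).powerset,
    (if 2 ≤ E m p t then (1 + eps) ^ t.card * yy ^ (E m p t - 2) else 0) with hP2
  have b0 : P0 < yy := bound m hm _
  have b1 : P1 < yy := bound m hm _
  have hz : ∑ t ∈ (range (m + 1)).powerset, (1 + eps) ^ t.card * yy ^ E m p t =
      P0 + yy * (P1 + yy * P2) := by
    rw [hP0, hP1, hP2, Finset.mul_sum, ← Finset.sum_add_distrib, Finset.mul_sum,
      ← Finset.sum_add_distrib]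
    apply Finset.sum_congr rfl
    intro t _
    rcases Nat.lt_or_ge (E m p t) 2 with h2 | h2
    · interval_cases E m p t
      · simp
      · simp [mul_comm]
    · obtain ⟨k, hk⟩ := Nat.exists_eq_add_of_le h2
      rw [hk, if_neg (by omega), if_neg (by omega), if_pos (by omega),
        show 2 + k - 2 = k by omega, pow_add]
      ring
  have hyy : 0 < yy := by unfold yy; norm_num
  have d1 : (P0 + yy * (P1 + yy * P2)) / yy % yy = P1 := by
    rw [Nat.add_mul_div_left _ _ hyy, Nat.div_eq_of_lt b0, zero_add, Nat.add_mul_mod_self_left,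
      Nat.mod_eq_of_lt b1]
  choose q hq using pow_eps
  have hP1' : P1 = (σ + S * eps) + (eps * eps) *
      ∑ t ∈ (range (m + 1)).powerset.filter (fun t => E m p t = 1), q t.card := by
    rw [hP1, ← Finset.sum_filter, Finset.sum_congr rfl (fun t _ => hq t.card),
      Finset.sum_add_distrib, Finset.sum_add_distrib, ← Finset.sum_mul, ← Finset.mul_sum,
      Finset.sum_const, smul_eq_mul, mul_one]
  have hcard : ((range (m + 1)).powerset.filter (fun t => E m p t = 1)).card ≤ 2 ^ 9 := by
    refine (Finset.card_filter_le _ _).trans ?_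
    rw [Finset.card_powerset, Finset.card_range]
    exact Nat.pow_le_pow_right (by norm_num) (by omega)
  have hσe : σ < eps := lt_of_le_of_lt hcard (by unfold eps; norm_num)
  have hSe : S < eps := by
    have : S ≤ 2 ^ 9 * 9 := by
      rw [hS]
      calc _ ≤ ∑ t ∈ (range (m + 1)).powerset.filter (fun t => E m p t = 1), 9 := by
              apply Finset.sum_le_sum
              intro t ht
              have := Finset.card_le_card (Finset.mem_powerset.mp (Finset.mem_filter.mp ht).1)
              rw [Finset.card_range] at this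
              omega
        _ ≤ 2 ^ 9 * 9 := by
              rw [Finset.sum_const, smul_eq_mul]
              exact Nat.mul_le_mul_right _ hcard
    exact lt_of_le_of_lt this (by unfold eps; norm_num)
  have heps : 0 < eps := by unfold eps; norm_num
  have hlt : σ + S * eps < eps * eps := by nlinarith
  have d2 : P1 % (eps * eps) = σ + S * eps := by
    rw [hP1', Nat.add_mul_mod_self_left, Nat.mod_eq_of_lt hlt]
  have d3 : (σ + S * eps) / eps = S := by
    rw [Nat.add_mul_div_right _ _ heps, Nat.div_eq_of_lt hσe, zero_add]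
  have d4 : (σ + S * eps) % eps = σ := by
    rw [Nat.add_mul_mod_self_right, Nat.mod_eq_of_lt hσe]
  unfold test at h
  rw [hz, d1, d2, d3, d4] at h
  exact Nat.le_of_ble_eq_true h

section link
variable {V : Type} [Fintype V] (T : SimpleGraph V) (m : ℕ) (g : V ↪ ℕ) (p : ℕ → ℕ)

lemma isNearly_iff_E (hlt : ∀ v, g v < m + 1) (hc : Fintype.card V = m + 1)
    (hp : ∀ j, 1 ≤ j → p j < j)
    (hadj : ∀ x y, T.Adj x y ↔ (1 ≤ g x ∧ p (g x) = g y) ∨ (1 ≤ g y ∧ p (g y) = g x))
    (S : Finset V) : IsNearly T S ↔ E m p (S.map g) = 1 := by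
  rw [isNearly_iff]
  unfold E
  rw [Finset.card_eq_one]
  have key : ∀ x y, x ∈ S → y ∈ S → 1 ≤ g x → p (g x) = g y →
      g x ∈ (Ico 1 (m + 1)).filter (fun j => j ∈ S.map g ∧ p j ∈ S.map g) := by
    intro x y hx hy h1 h2
    rw [Finset.mem_filter, Finset.mem_Ico]
    refine ⟨⟨h1, hlt x⟩, Finset.mem_map_of_mem g hx, ?_⟩
    rw [h2]; exact Finset.mem_map_of_mem g hy
  constructor
  · rintro ⟨u, v, huv, hu, hv, h⟩
    wlog huv' : 1 ≤ g u ∧ p (g u) = g v generalizing u v with H
    · rcases (hadj u v).mp huv with h1 | h1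
      · exact absurd h1 huv'
      · exact H v u huv.symm hv hu (fun x hx y hy hxy => by rw [h x hx y hy hxy, Sym2.eq_swap]) h1
    refine ⟨g u, ?_⟩
    ext j
    rw [Finset.mem_singleton]
    constructor
    · intro hj
      rw [Finset.mem_filter, Finset.mem_Ico, Finset.mem_map, Finset.mem_map] at hj
      obtain ⟨⟨h1, h2⟩, ⟨x, hx, rfl⟩, ⟨y, hy, hxy⟩⟩ := hj
      have hA : T.Adj x y := (hadj x y).mpr (Or.inl ⟨h1, hxy.symm⟩)
      have := h x hx y hy hA
      rw [Sym2.eq_iff] at this
      rcases this with ⟨rfl, -⟩ | ⟨rfl, rfl⟩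
      · rfl
      · exfalso
        have a1 := hp _ h1
        have a2 := hp _ huv'.1
        rw [huv'.2] at a2
        rw [← hxy] at a1
        omega
    · rintro rfl
      exact key u v hu hv huv'.1 huv'.2
  · rintro ⟨j, hj⟩
    have hj' : j ∈ (Ico 1 (m + 1)).filter (fun j => j ∈ S.map g ∧ p j ∈ S.map g) := by
      rw [hj]; simp
    rw [Finset.mem_filter, Finset.mem_Ico, Finset.mem_map, Finset.mem_map] at hj'
    obtain ⟨⟨h1, h2⟩, ⟨u, hu, rfl⟩, ⟨v, hv, huv⟩⟩ := hj'
    refine ⟨u, v, (hadj u v).mpr (Or.inl ⟨h1, huv.symm⟩), hu, hv, ?_⟩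
    intro x hx y hy hxy
    rcases (hadj x y).mp hxy with h3 | h3
    · have := key x y hx hy h3.1 h3.2
      rw [hj, Finset.mem_singleton] at this
      have hxu := g.injective this
      subst hxu
      have : g y = g v := by rw [← h3.2, huv]
      rw [g.injective this]
    · have := key y x hy hx h3.1 h3.2
      rw [hj, Finset.mem_singleton] at this
      have hxu := g.injective this
      subst hxu
      have : g x = g v := by rw [← h3.2, huv]
      rw [g.injective this, Sym2.eq_swap]

lemma filter_eq_image [DecidableEq V] (hlt : ∀ v, g v < m + 1) (hc : Fintype.card V = m + 1)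
    (hp : ∀ j, 1 ≤ j → p j < j)
    (hadj : ∀ x y, T.Adj x y ↔ (1 ≤ g x ∧ p (g x) = g y) ∨ (1 ≤ g y ∧ p (g y) = g x)) :
    (range (m + 1)).powerset.filter (fun t => E m p t = 1) =
      (nearly T).image (fun S => S.map g) := by
  have huniv : (univ : Finset V).map g = range (m + 1) := by
    apply Finset.eq_of_subset_of_card_le
    · intro j hj
      rw [Finset.mem_map] at hj
      obtain ⟨v, -, rfl⟩ := hj
      exact Finset.mem_range.mpr (hlt v)
    · rw [Finset.card_range, Finset.card_map, Finset.card_univ, hc]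
  ext t
  rw [Finset.mem_filter, Finset.mem_powerset, Finset.mem_image]
  constructor
  · rintro ⟨h1, h2⟩
    have ht : (univ.filter (fun v => g v ∈ t)).map g = t := by
      ext j
      rw [Finset.mem_map]
      constructor
      · rintro ⟨v, hv, rfl⟩
        exact (Finset.mem_filter.mp hv).2
      · intro hj
        have := h1 hj
        rw [← huniv, Finset.mem_map] at this
        obtain ⟨v, -, rfl⟩ := this
        exact ⟨v, by simp [hj], rfl⟩
    refine ⟨univ.filter (fun v => g v ∈ t), ?_, ht⟩
    rw [mem_nearly, isNearly_iff_E T m g p hlt hc hp hadj, ht]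
    exact h2
  · rintro ⟨S, hS, rfl⟩
    rw [mem_nearly, isNearly_iff_E T m g p hlt hc hp hadj] at hS
    refine ⟨?_, hS⟩
    intro j hj
    rw [Finset.mem_map] at hj
    obtain ⟨v, -, rfl⟩ := hj
    exact Finset.mem_range.mpr (hlt v)

end link

lemma init_L (m : ℕ) : L (fun _ => 1) (fun _ => 1 + eps) m = List.replicate (m + 1) (1, 1 + eps) := by
  induction m with
  | zero => rfl
  | succ m ih => simp only [L]; rw [ih]; rfl

theorem search_bound {V : Type} [Fintype V] (T : SimpleGraph V) (hT : T.IsTree) (m : ℕ)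
    (hm : m ≤ 8) (hc : Fintype.card V = m + 1) (A B : ℕ)
    (h : dfs A B m (List.replicate (m + 1) (1, 1 + eps)) = true) : S1 T * B ≤ A * sigma1 T := by
  classical
  obtain ⟨g, p, hlt, hp, hadj⟩ := exists_label m V T hT hc
  rw [← init_L] at h
  have h1 := extract m hm p A B (dfs_correct A B m _ _ h p hp)
  rw [filter_eq_image T m g p hlt hc hp hadj, Finset.sum_image (fun a _ b _ hab =>
      Finset.map_injective g hab), Finset.card_image_of_injective _ (Finset.map_injective g)] at h1
  simp only [Finset.card_map] at h1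
  exact h1

theorem s6 : dfs 3 1 5 (List.replicate 6 (1, 1 + eps)) = true := by decide +kernel
theorem s7 : dfs 86 25 6 (List.replicate 7 (1, 1 + eps)) = true := by decide +kernel
theorem s8 : dfs 171 43 7 (List.replicate 8 (1, 1 + eps)) = true := by decide +kernel
theorem s9 : dfs 32 7 8 (List.replicate 9 (1, 1 + eps)) = true := by decide +kernel

end Q116.Nearly
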