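import Pool.Agent.Q116.Nearly.Formula
import Pool.Agent.Q116.Nearly.Search

set_option autoImplicit false

namespace Q116.Nearly

open Finset

section third
variable {V : Type} [Fintype V] [DecidableEq V] (G : SimpleGraph V)

/-- the sets whose unique edge is `e` -/
noncomputable def fam (e : Sym2 V) : Finset (Finset V) := by
  classical
  exact univ.filter (fun S => (∀ v ∈ e, v ∈ S) ∧ ∀ x ∈ S, ∀ y ∈ S, G.Adj x y → s(x, y) = e)

lemma mem_fam (e : Sym2 V) (S : Finset V) : S ∈ fam G e ↔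
    (∀ v ∈ e, v ∈ S) ∧ ∀ x ∈ S, ∀ y ∈ S, G.Adj x y → s(x, y) = e := by
  unfold fam; simp

/-- the edge set as a finset -/
noncomputable def ES : Finset (Sym2 V) := by classical exact univ.filter (fun e => e ∈ G.edgeSet)

lemma mem_ES (e : Sym2 V) : e ∈ ES G ↔ e ∈ G.edgeSet := by unfold ES; simp

lemma nearly_biUnion : nearly G = (ES G).biUnion (fam G) := by
  ext S
  rw [mem_nearly, isNearly_iff, Finset.mem_biUnion]
  constructor
  · rintro ⟨u, v, huv, hu, hv, h⟩
    refine ⟨s(u, v), (mem_ES G _).mpr huv, (mem_fam G _ _).mpr ⟨?_, h⟩⟩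
    intro x hx
    rw [Sym2.mem_iff] at hx
    rcases hx with rfl | rfl
    · exact hu
    · exact hv
  · rintro ⟨e, he, hS⟩
    rw [mem_ES] at he
    rw [mem_fam] at hS
    induction e using Sym2.ind with
    | _ u v =>
      exact ⟨u, v, he, hS.1 u (by simp), hS.1 v (by simp), hS.2⟩

lemma fam_disj : ((ES G : Finset (Sym2 V)) : Set (Sym2 V)).PairwiseDisjoint (fam G) := by
  intro e he e' he' hne
  rw [Function.onFun, Finset.disjoint_left]
  intro S h1 h2
  rw [Finset.mem_coe, mem_ES] at he he'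
  rw [mem_fam] at h1 h2
  apply hne
  induction e using Sym2.ind with
  | _ u v => exact h2.2 u (h1.1 u (by simp)) v (h1.1 v (by simp)) he

/-- `|F| - 2 |{S ∈ F : x ∈ S}|` -/
def ff (F : Finset (Finset V)) (x : V) : ℤ := F.card - 2 * (F.filter (fun S => x ∈ S)).card

lemma sum_ff (F : Finset (Finset V)) : ∑ x : V, ff F x =
    ∑ S ∈ F, ((Fintype.card V : ℤ) - 2 * S.card) := by
  unfold ff
  rw [Finset.sum_sub_distrib, Finset.sum_sub_distrib, ← Finset.mul_sum, ← Finset.mul_sum]
  congr 1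
  · rw [Finset.sum_const, Finset.sum_const, Finset.card_univ]; simp [mul_comm]
  · congr 1
    have h1 : ∀ x : V, ((F.filter (fun S => x ∈ S)).card : ℤ) = ∑ S ∈ F, if x ∈ S then (1 : ℤ) else 0 := by
      intro x; rw [Finset.card_filter]; push_cast; rfl
    rw [Finset.sum_congr rfl (fun x _ => h1 x), Finset.sum_comm]
    apply Finset.sum_congr rfl
    intro S _
    rw [Finset.sum_ite_mem, Finset.univ_inter, Finset.sum_const]; simp

variable {G}
variable {u v : V}

lemma ff_end (x : V) (hx : x = u ∨ x = v) : ff (fam G s(u, v)) x = -((fam G s(u, v)).card : ℤ) := by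
  have : (fam G s(u, v)).filter (fun S => x ∈ S) = fam G s(u, v) := by
    rw [Finset.filter_eq_self]
    intro S hS
    rw [mem_fam] at hS
    exact hS.1 x (by rw [Sym2.mem_iff]; exact hx)
  unfold ff
  rw [this]; ring

lemma ff_nbr (x : V) (h1 : x ≠ u) (h2 : x ≠ v) (hx : G.Adj u x ∨ G.Adj v x) :
    ff (fam G s(u, v)) x = ((fam G s(u, v)).card : ℤ) := by
  have : (fam G s(u, v)).filter (fun S => x ∈ S) = ∅ := by
    rw [Finset.filter_eq_empty_iff]
    intro S hS hxS
    rw [mem_fam] at hS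
    have hu := hS.1 u (by simp)
    have hv := hS.1 v (by simp)
    rcases hx with hx | hx
    · have := hS.2 u hu x hxS hx
      rw [Sym2.eq_iff] at this
      rcases this with ⟨-, h⟩ | ⟨-, h⟩
      · exact h2 h
      · exact h1 h
    · have := hS.2 v hv x hxS hx
      rw [Sym2.eq_iff] at this
      rcases this with ⟨-, h⟩ | ⟨-, h⟩
      · exact h2 h
      · exact h1 h
  unfold ff
  rw [this]; simp

lemma erase_mem {S : Finset V} (hS : S ∈ fam G s(u, v)) (x : V) (h1 : x ≠ u) (h2 : x ≠ v) :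
    S.erase x ∈ fam G s(u, v) := by
  rw [mem_fam] at hS ⊢
  constructor
  · intro z hz
    have := hS.1 z hz
    rw [Sym2.mem_iff] at hz
    rw [Finset.mem_erase]
    refine ⟨?_, this⟩
    rcases hz with rfl | rfl
    · exact h1.symm
    · exact h2.symm
  · intro a ha b hb hab
    exact hS.2 a (Finset.mem_of_mem_erase ha) b (Finset.mem_of_mem_erase hb) hab

lemma ff_nonneg (x : V) (h1 : x ≠ u) (h2 : x ≠ v) : 0 ≤ ff (fam G s(u, v)) x := by
  have hle : ((fam G s(u, v)).filter (fun S => x ∈ S)).card ≤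
      ((fam G s(u, v)).filter (fun S => ¬ x ∈ S)).card := by
    apply Finset.card_le_card_of_injOn (fun S => S.erase x)
    · intro S hS
      rw [Finset.mem_coe, Finset.mem_filter] at hS
      rw [Finset.mem_coe, Finset.mem_filter]
      exact ⟨erase_mem hS.1 x h1 h2, Finset.notMem_erase x S⟩
    · intro S hS T hT hST
      rw [Finset.mem_coe, Finset.mem_filter] at hS hT
      have e : S.erase x = T.erase x := hST
      rw [← Finset.insert_erase hS.2, e, Finset.insert_erase hT.2]
  have hsum := Finset.card_filter_add_card_filter_not (s := fam G s(u, v)) (fun S => x ∈ S)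
  unfold ff
  omega

lemma ff_edge (x y : V) (h1 : x ≠ u) (h2 : x ≠ v) (h3 : y ≠ u) (h4 : y ≠ v) (hxy : G.Adj x y) :
    2 * ((fam G s(u, v)).card : ℤ) ≤ 3 * (ff (fam G s(u, v)) x + ff (fam G s(u, v)) y) := by
  set F := fam G s(u, v) with hF
  have hnot : ∀ S ∈ F, ¬ (x ∈ S ∧ y ∈ S) := by
    intro S hS hxy'
    rw [hF, mem_fam] at hS
    have := hS.2 x hxy'.1 y hxy'.2 hxy
    rw [Sym2.eq_iff] at this
    rcases this with ⟨h, -⟩ | ⟨h, -⟩
    · exact h1 h
    · exact h2 h
  set C := F.filter (fun S => x ∉ S ∧ y ∉ S) with hC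
  have hA : (F.filter (fun S => x ∈ S)).card ≤ C.card := by
    apply Finset.card_le_card_of_injOn (fun S => S.erase x)
    · intro S hS
      rw [Finset.mem_coe, Finset.mem_filter] at hS
      rw [Finset.mem_coe, hC, Finset.mem_filter]
      exact ⟨erase_mem hS.1 x h1 h2, Finset.notMem_erase x S,
        fun hy => hnot S hS.1 ⟨hS.2, Finset.mem_of_mem_erase hy⟩⟩
    · intro S hS T hT hST
      rw [Finset.mem_coe, Finset.mem_filter] at hS hT
      have e : S.erase x = T.erase x := hST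
      rw [← Finset.insert_erase hS.2, e, Finset.insert_erase hT.2]
  have hB : (F.filter (fun S => y ∈ S)).card ≤ C.card := by
    apply Finset.card_le_card_of_injOn (fun S => S.erase y)
    · intro S hS
      rw [Finset.mem_coe, Finset.mem_filter] at hS
      rw [Finset.mem_coe, hC, Finset.mem_filter]
      exact ⟨erase_mem hS.1 y h3 h4, fun hx => hnot S hS.1 ⟨Finset.mem_of_mem_erase hx, hS.2⟩,
        Finset.notMem_erase y S⟩
    · intro S hS T hT hST
      rw [Finset.mem_coe, Finset.mem_filter] at hS hT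
      have e : S.erase y = T.erase y := hST
      rw [← Finset.insert_erase hS.2, e, Finset.insert_erase hT.2]
  have hsum : F.card = (F.filter (fun S => x ∈ S)).card + (F.filter (fun S => y ∈ S)).card +
      C.card := by
    rw [← Finset.card_filter_add_card_filter_not (s := F) (fun S => x ∈ S), add_assoc]
    congr 1
    rw [← Finset.card_filter_add_card_filter_not (s := F.filter (fun S => ¬ x ∈ S))
      (fun S => y ∈ S), Finset.filter_filter, Finset.filter_filter]
    congr 2
    apply Finset.filter_congr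
    intro S hS
    constructor
    · exact fun h => h.2
    · exact fun h => ⟨fun hx => hnot S hS ⟨hx, h⟩, h⟩
  unfold ff
  omega

lemma sum_ge (F : Finset (Finset V)) (s : Finset V) (h : ∀ x, x ∉ s → 0 ≤ ff F x) :
    ∑ x ∈ s, ff F x ≤ ∑ x : V, ff F x :=
  Finset.sum_le_sum_of_subset_of_nonneg (Finset.subset_univ s) (fun x _ hx => h x hx)

/-- the two good situations -/
def Good (G : SimpleGraph V) (u v : V) : Prop :=
  (∃ a b, a ≠ b ∧ a ≠ u ∧ a ≠ v ∧ b ≠ u ∧ b ≠ v ∧ (G.Adj u a ∨ G.Adj v a) ∧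
    (G.Adj u b ∨ G.Adj v b)) ∨
  (∃ a x y, a ≠ u ∧ a ≠ v ∧ (G.Adj u a ∨ G.Adj v a) ∧ G.Adj x y ∧ x ≠ u ∧ x ≠ v ∧ x ≠ a ∧
    y ≠ u ∧ y ≠ v ∧ y ≠ a)

lemma good_bound (huv : u ≠ v) (h : Good G u v) : 2 * ((fam G s(u, v)).card : ℤ) ≤
    3 * ∑ S ∈ fam G s(u, v), ((Fintype.card V : ℤ) + 1 - 2 * S.card) := by
  have e1 : ∑ S ∈ fam G s(u, v), ((Fintype.card V : ℤ) + 1 - 2 * S.card) =
      (fam G s(u, v)).card + ∑ x : V, ff (fam G s(u, v)) x := by
    rw [sum_ff, ← sub_eq_zero]
    have : ∀ S ∈ fam G s(u, v), ((Fintype.card V : ℤ) + 1 - 2 * S.card) =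
        1 + ((Fintype.card V : ℤ) - 2 * S.card) := by intro S _; ring
    rw [Finset.sum_congr rfl this, Finset.sum_add_distrib, Finset.sum_const]
    simp
  rw [e1]
  have hcard : (0 : ℤ) ≤ ((fam G s(u, v)).card : ℤ) := Nat.cast_nonneg _
  have hu := ff_end (G := G) (u := u) (v := v) u (Or.inl rfl)
  have hv := ff_end (G := G) (u := u) (v := v) v (Or.inr rfl)
  rcases h with ⟨a, b, hab, hau, hav, hbu, hbv, ha, hb⟩ | ⟨a, x, y, hau, hav, ha, hxy, hxu, hxv,
    hxa, hyu, hyv, hya⟩
  · have hs := sum_ge (fam G s(u, v)) {u, v, a, b} (by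
      intro z hz
      simp only [Finset.mem_insert, Finset.mem_singleton, not_or] at hz
      exact ff_nonneg z hz.1 hz.2.1)
    rw [Finset.sum_insert (by simp [huv, hau.symm, hbu.symm]), Finset.sum_insert (by
      simp [hav.symm, hbv.symm]), Finset.sum_pair hab, hu, hv, ff_nbr a hau hav ha,
      ff_nbr b hbu hbv hb] at hs
    linarith
  · have hs := sum_ge (fam G s(u, v)) {u, v, a, x, y} (by
      intro z hz
      simp only [Finset.mem_insert, Finset.mem_singleton, not_or] at hz
      exact ff_nonneg z hz.1 hz.2.1)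
    rw [Finset.sum_insert (by simp [huv, hau.symm, hxu.symm, hyu.symm]), Finset.sum_insert (by
      simp [hav.symm, hxv.symm, hyv.symm]), Finset.sum_insert (by simp [hxa.symm, hya.symm]),
      Finset.sum_pair hxy.ne, hu, hv, ff_nbr a hau hav ha] at hs
    have := ff_edge (G := G) (u := u) (v := v) x y hxu hxv hyu hyv hxy
    linarith

/-- if all edges are good then the average is at most `(n + 1) / 2 - 1 / 3` -/
lemma all_good (h : ∀ u v, G.Adj u v → Good G u v) :
    6 * S1 G ≤ (3 * Fintype.card V + 1) * sigma1 G := by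
  have key : 2 * ((nearly G).card : ℤ) ≤
      3 * ∑ S ∈ nearly G, ((Fintype.card V : ℤ) + 1 - 2 * S.card) := by
    rw [nearly_biUnion, Finset.card_biUnion (fun e he e' he' hne => fam_disj G he he' hne),
      Finset.sum_biUnion (fam_disj G), Finset.mul_sum]
    push_cast
    rw [Finset.mul_sum]
    apply Finset.sum_le_sum
    intro e he
    rw [mem_ES] at he
    induction e using Sym2.ind with
    | _ u v =>
      rw [SimpleGraph.mem_edgeSet] at he
      exact good_bound he.ne (h u v he)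
  have e1 : ∑ S ∈ nearly G, ((Fintype.card V : ℤ) + 1 - 2 * S.card) =
      ((Fintype.card V : ℤ) + 1) * (nearly G).card - 2 * ((∑ S ∈ nearly G, S.card : ℕ) : ℤ) := by
    rw [Finset.sum_sub_distrib, Finset.sum_const, ← Finset.mul_sum]
    push_cast
    simp [mul_comm]
  rw [e1] at key
  have : (6 * S1 G : ℤ) ≤ (3 * Fintype.card V + 1) * sigma1 G := by
    unfold S1 sigma1
    linarith
  exact_mod_cast this

/-- a bad edge forces the structure of `R_n` -/
lemma bad_edge (hT : G.IsTree) (hn : 4 ≤ Fintype.card V) (huv : G.Adj u v) (hb : ¬ Good G u v) :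
    ∃ u v w, IsR G u v w := by
  unfold Good at hb
  rw [not_or] at hb
  obtain ⟨hb1, hb2⟩ := hb
  have hconn := hT.connected
  -- every proper nonempty set has an outgoing edge
  have hout : ∀ s : Finset V, s.Nonempty → s ≠ univ → ∃ a ∈ s, ∃ b, b ∉ s ∧ G.Adj a b := by
    intro s hs hsu
    by_contra hcon
    push Not at hcon
    obtain ⟨a, ha⟩ := hs
    have : ∀ b, G.Reachable a b → b ∈ s := by
      rintro b ⟨p⟩
      induction p with
      | nil => exact ha
      | cons hadj q ih =>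
        rename_i x y z
        have hy : y ∈ s := by
          by_contra hy
          exact hcon x ha y hy hadj
        exact ih hy
    apply hsu
    ext b
    simp [this b (hconn.preconnected a b)]
  -- the third vertex
  obtain ⟨a, ha, w, hw, haw⟩ := hout {u, v} ⟨u, by simp⟩ (by
    intro he
    have := congrArg Finset.card he
    rw [Finset.card_pair huv.ne, Finset.card_univ] at this
    omega)
  simp only [Finset.mem_insert, Finset.mem_singleton, not_or] at ha hw
  wlog hav : a = v generalizing u v with H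
  · have hau : a = u := ha.resolve_right hav
    have hb1' : ¬ (∃ a b, a ≠ b ∧ a ≠ v ∧ a ≠ u ∧ b ≠ v ∧ b ≠ u ∧ (G.Adj v a ∨ G.Adj u a) ∧
        (G.Adj v b ∨ G.Adj u b)) := by
      rintro ⟨a, b, h1, h2, h3, h4, h5, h6, h7⟩
      exact hb1 ⟨a, b, h1, h3, h2, h5, h4, h6.symm, h7.symm⟩
    have hb2' : ¬ (∃ a x y, a ≠ v ∧ a ≠ u ∧ (G.Adj v a ∨ G.Adj u a) ∧ G.Adj x y ∧ x ≠ v ∧ x ≠ u ∧
        x ≠ a ∧ y ≠ v ∧ y ≠ u ∧ y ≠ a) := by
      rintro ⟨a, x, y, h1, h2, h3, h4, h5, h6, h7, h8, h9, h10⟩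
      exact hb2 ⟨a, x, y, h2, h1, h3.symm, h4, h6, h5, h7, h9, h8, h10⟩
    exact H huv.symm hb1' hb2' ha.symm hw.symm hau
  subst hav
  have hwu : u ≠ w := fun h => hw.1 h.symm
  have huw : ¬ G.Adj u w := by
    intro huw
    -- triangle
    have hp := (SimpleGraph.isAcyclic_iff_path_unique.mp hT.isAcyclic)
    let p1 : G.Path u w := ⟨SimpleGraph.Walk.cons huw SimpleGraph.Walk.nil, by
      simp [hwu]⟩
    let p2 : G.Path u w := ⟨SimpleGraph.Walk.cons huv (SimpleGraph.Walk.cons haw
      SimpleGraph.Walk.nil), by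
        simp [SimpleGraph.Walk.isPath_def, huv.ne, hwu, haw.ne]⟩
    have := hp p1 p2
    have h2 := congrArg (fun p : G.Path u w => p.1.length) this
    simp [p1, p2] at h2
  refine ⟨u, a, w, ?_⟩
  have nun : ∀ x, x ≠ u → x ≠ a → x ≠ w → ¬ G.Adj u x ∧ ¬ G.Adj a x := by
    intro x h1 h2 h3
    constructor
    · intro h
      exact hb1 ⟨x, w, h3, h1, h2, hw.1, hw.2, Or.inl h, Or.inr haw⟩
    · intro h
      exact hb1 ⟨x, w, h3, h1, h2, hw.1, hw.2, Or.inr h, Or.inr haw⟩
  have nnn : ∀ x y, x ≠ u → x ≠ a → x ≠ w → y ≠ u → y ≠ a → y ≠ w → ¬ G.Adj x y := by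
    intro x y h1 h2 h3 h4 h5 h6 h
    exact hb2 ⟨w, x, y, hw.1, hw.2, Or.inr haw, h, h1, h2, h3, h4, h5, h6⟩
  refine ⟨huv.ne, haw.ne, hwu, huv, haw, huw, ?_, fun x h1 h2 h3 => (nun x h1 h2 h3).1,
    fun x h1 h2 h3 => (nun x h1 h2 h3).2, nnn⟩
  intro x h1 h2 h3
  obtain ⟨x', hx', y, hy, hxy⟩ := hout {x} ⟨x, by simp⟩ (by
    intro he
    have := congrArg Finset.card he
    rw [Finset.card_singleton, Finset.card_univ] at this
    omega)
  rw [Finset.mem_singleton] at hx' hy
  rw [hx'] at hxy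
  by_cases hy1 : y = u
  · exact absurd (hy1 ▸ hxy).symm (nun x h1 h2 h3).1
  by_cases hy2 : y = a
  · exact absurd (hy2 ▸ hxy).symm (nun x h1 h2 h3).2
  by_cases hy3 : y = w
  · rw [← hy3]; exact hxy.symm
  exact absurd hxy (nnn x y h1 h2 h3 hy1 hy2 hy3)

end third

lemma pow_ineq (m : ℕ) (hm : 7 ≤ m) : 6 * m ^ 2 ≤ 2 ^ (m + 1) + 7 * m + 2 := by
  induction m, hm using Nat.le_induction with
  | base => norm_num
  | succ k hk ih =>
    have : 2 ^ (k + 1 + 1) = 2 * 2 ^ (k + 1) := by ring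
    rw [this]
    nlinarith

/-- the answer to Q1 -/
theorem main (n : ℕ) (hn : 4 ≤ n) (T : SimpleGraph (Fin n)) (hT : T.IsTree) :
    av1 T ≤ av1 (R n) := by
  obtain ⟨m, rfl⟩ := Nat.exists_eq_add_of_le' (show 3 ≤ n by omega)
  have hc : Fintype.card (Fin (m + 3)) = m + 3 := Fintype.card_fin _
  have hR := R_isR (m + 3) hn
  have hσR := hR.sigma1_eq m hc
  have hSR := hR.S1_eq m hc
  have hσpos : 0 < sigma1 (R (m + 3)) := by rw [hσR]; positivity
  -- comparison through cross multiplication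
  have cross : ∀ A B : ℕ, 0 < B → S1 T * B ≤ A * sigma1 T →
      A * sigma1 (R (m + 3)) ≤ S1 (R (m + 3)) * B → av1 T ≤ av1 (R (m + 3)) := by
    intro A B hB h1 h2
    have hB' : (0 : ℚ) < B := by exact_mod_cast hB
    have hσ' : (0 : ℚ) < sigma1 (R (m + 3)) := by exact_mod_cast hσpos
    have h2' : (A : ℚ) / B ≤ av1 (R (m + 3)) := by
      unfold av1
      rw [div_le_div_iff₀ hB' hσ']
      exact_mod_cast h2
    refine le_trans ?_ h2'
    rcases Nat.eq_zero_or_pos (sigma1 T) with h0 | h0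
    · unfold av1; rw [h0]; simp; positivity
    · have h0' : (0 : ℚ) < sigma1 T := by exact_mod_cast h0
      unfold av1
      rw [div_le_div_iff₀ h0' hB']
      exact_mod_cast h1
  by_cases hstr : ∃ u v w, IsR T u v w
  · obtain ⟨u, v, w, h⟩ := hstr
    have hσT := h.sigma1_eq m hc
    have hST := h.S1_eq m hc
    unfold av1
    rw [hσT, hσR, show S1 T = S1 (R (m + 3)) by omega]
  by_cases hm : m ∈ Finset.Icc 3 6
  · rw [Finset.mem_Icc] at hm
    obtain ⟨h1, h2⟩ := hm
    interval_cases m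
    · exact cross 3 1 (by norm_num) (search_bound T hT 5 (by norm_num) hc 3 1 s6) (by
        rw [hσR]; omega)
    · exact cross 86 25 (by norm_num) (search_bound T hT 6 (by norm_num) hc 86 25 s7) (by
        rw [hσR]; omega)
    · exact cross 171 43 (by norm_num) (search_bound T hT 7 (by norm_num) hc 171 43 s8) (by
        rw [hσR]; omega)
    · exact cross 32 7 (by norm_num) (search_bound T hT 8 (by norm_num) hc 32 7 s9) (by
        rw [hσR]; omega)
  · have hgood : ∀ u v, T.Adj u v → Good T u v := by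
      intro u v huv
      by_contra hb
      exact hstr (bad_edge hT (by rw [hc]; exact hn) huv hb)
    have hall := all_good hgood
    rw [hc] at hall
    apply cross (3 * (m + 3) + 1) 6 (by norm_num) (by rw [mul_comm]; exact hall)
    rw [hσR]
    have key : 6 * m ^ 2 ≤ 2 ^ (m + 1) + 7 * m + 2 := by
      rw [Finset.mem_Icc, not_and_or] at hm
      rcases Nat.lt_or_ge m 3 with h | h
      · interval_cases m <;> norm_num
      · exact pow_ineq m (by omega)
    have : 2 * (S1 (R (m + 3)) * 6) = 6 * (m * 2 ^ m + 4 * 2 ^ m + 10 * m + 4) := by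
      rw [← hSR]; ring
    have h2 : 2 * ((3 * (m + 3) + 1) * (2 ^ m + 2 * m + 1)) ≤
        6 * (m * 2 ^ m + 4 * 2 ^ m + 10 * m + 4) := by
      rw [pow_succ 2 m] at key
      nlinarith
    omega

end Q116.Nearly
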